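import Mathlib
import Pool.Agent.Y105.RZ.Fin
import Pool.Agent.L0h4.TC.Zd

/-!
# Local solubility of the general 2-coverings at the good primes

`Y^2 = X (X^2 + 21 M X + 112 M^2)`, the class of `z = (x + 11 y) + (y / M) T` modulo squares, where
`T^2 + 21 M T + 112 M^2 = 0`, and a prime `p` which does not divide `14 M (x^2 + x y + 2 y^2)`.
-/

set_option autoImplicit false
set_option linter.unusedSectionVars false

open Finset

namespace Pool.Agent.L0h98.BSD

open Pool.Agent.L0h4.TC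

section general

variable {L : Type} [Field L] {a b : ℤ}

/-- a point from a square quotient -/
lemma PtZ_of {u v X Y N : L} (hN : u^2 - a*u*v + b*v^2 = N) (hN0 : N ≠ 0) (hY : Y ≠ 0)
    (hXY : Y^2 = X*(X^2 + a*X + b))
    (h : SqZ L a b ((X*(u - a*v) - b*v)/N) ((-X*v - u)/N)) :
    PtZ L a b u v := by
  obtain ⟨g, h, hg, hh⟩ := h
  refine ⟨X, Y, g, h, hY, hXY, ?_, ?_⟩
  · rw [← hg, ← hh]
    field_simp
    linear_combination (-X) * hN
  · rw [← hg, ← hh]
    field_simp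
    linear_combination hN

/-- the split case -/
lemma SqZ_split {u v E1 E2 : L} (hE : E1 ≠ E2) (ha : (a : L) = -(E1 + E2)) (hb : (b : L) = E1*E2)
    (h1 : IsSquare (u + v*E1)) (h2 : IsSquare (u + v*E2)) : SqZ L a b u v := by
  obtain ⟨s1, h1⟩ := h1
  obtain ⟨s2, h2⟩ := h2
  have hd : E1 - E2 ≠ 0 := sub_ne_zero.2 hE
  refine ⟨s1 - (s1 - s2)/(E1 - E2)*E1, (s1 - s2)/(E1 - E2), ?_, ?_⟩
  · rw [hb]
    have hu : u = (E1*(s2*s2) - E2*(s1*s1))/(E1 - E2) := by
      rw [← h1, ← h2]; field_simp; ring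
    rw [hu]
    field_simp
    ring
  · rw [ha]
    have hv : v = (s1*s1 - s2*s2)/(E1 - E2) := by
      rw [← h1, ← h2]; field_simp; ring
    rw [hv]
    field_simp
    ring

/-- a square root from a square root of the norm -/
lemma SqZ_of_trace {u v n t : L} (h2 : (2 : L) ≠ 0) (hn : n^2 = u^2 - a*u*v + b*v^2)
    (ht : t^2 = 2*u - a*v + 2*n) (ht0 : t ≠ 0) : SqZ L a b u v := by
  refine ⟨(t + a*(v/t))/2, v/t, ?_, ?_⟩
  · have h4 : (4 : L) ≠ 0 := by
      have : (4 : L) = 2*2 := by norm_num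
      rw [this]; exact mul_ne_zero h2 h2
    field_simp
    have e : u * (4 * t^2) = (t^2 + a*v)^2 - 4*b*v^2 := by
      rw [ht]
      linear_combination (-4) * hn
    linear_combination e
  · field_simp
    ring

end general

section finite

variable {F : Type} [Field F] [Fintype F] [DecidableEq F] {a b : ℤ}

/-- a square if the norm is a square, in the inert case -/
lemma SqZ_inert {u v : F} (h2 : ringChar F ≠ 2) (hD : ¬ IsSquare ((a : F)^2 - 4*b))
    (hN : u^2 - a*u*v + b*v^2 ≠ 0) (hs : IsSquare (u^2 - a*u*v + b*v^2)) : SqZ F a b u v := by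
  have h2' : (2 : F) ≠ 0 := Ring.two_ne_zero h2
  have hD0 : (a : F)^2 - 4*b ≠ 0 := fun h => hD (h ▸ IsSquare.zero)
  have hDc : quadraticChar F ((a : F)^2 - 4*b) = -1 := quadraticChar_neg_one_iff_not_isSquare.2 hD
  obtain ⟨n, hn⟩ := hs
  by_cases hv : v = 0
  · subst hv
    have hu0 : u ≠ 0 := by rintro rfl; exact hN (by ring)
    by_cases hu : IsSquare u
    · obtain ⟨g, hg⟩ := hu
      exact ⟨g, 0, by rw [hg]; ring, by ring⟩
    · have hc : quadraticChar F (u * ((a : F)^2 - 4*b)) = 1 := by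
        rw [map_mul, hDc, quadraticChar_neg_one_iff_not_isSquare.2 hu]; norm_num
      obtain ⟨r, hr⟩ := (quadraticChar_one_iff_isSquare (mul_ne_zero hu0 hD0)).1 hc
      refine ⟨a * (r/((a : F)^2 - 4*b)), 2 * (r/((a : F)^2 - 4*b)), ?_, ?_⟩
      · have e : u = r*r/((a : F)^2 - 4*b) := by rw [← hr]; field_simp
        rw [e]
        field_simp
        ring
      · ring
  · have key : (2*u - a*v + 2*n) * (2*u - a*v + 2*(-n)) = ((a : F)^2 - 4*b) * v^2 := by
      linear_combination (4 : F) * hn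
    have hp0 : (2*u - a*v + 2*n) * (2*u - a*v + 2*(-n)) ≠ 0 := by
      rw [key]; exact mul_ne_zero hD0 (pow_ne_zero 2 hv)
    have hpc : quadraticChar F ((2*u - a*v + 2*n)) * quadraticChar F (2*u - a*v + 2*(-n)) = -1 := by
      rw [← map_mul, key, map_mul, hDc, quadraticChar_sq_one' hv]; norm_num
    have f1 := left_ne_zero_of_mul hp0
    have f2 := right_ne_zero_of_mul hp0
    rcases quadraticChar_dichotomy f1 with h | h
    · obtain ⟨t, ht⟩ := (quadraticChar_one_iff_isSquare f1).1 h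
      refine SqZ_of_trace (n := n) (t := t) h2' (by rw [hn]; ring) (by rw [ht]; ring) ?_
      rintro rfl
      exact f1 (by rw [ht]; ring)
    · have h' : quadraticChar F (2*u - a*v + 2*(-n)) = 1 := by
        rw [h] at hpc; linarith
      obtain ⟨t, ht⟩ := (quadraticChar_one_iff_isSquare f2).1 h'
      refine SqZ_of_trace (n := -n) (t := t) h2' (by rw [hn]; ring) (by rw [ht]; ring) ?_
      rintro rfl
      exact f2 (by rw [ht]; ring)

lemma sum_sq (h2 : ringChar F ≠ 2) (f : F → ℤ) :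
    ∑ x : F, f (x^2) = ∑ v : F, (quadraticChar F v + 1) * f v := by
  rw [← Finset.sum_fiberwise univ (fun x : F => x^2) (fun x => f (x^2))]
  refine sum_congr rfl fun v _ => ?_
  rw [Finset.sum_congr rfl (g := fun _ => f v) (fun x hx => by rw [(mem_filter.1 hx).2])]
  rw [sum_const, nsmul_eq_mul, ← quadraticChar_card_sqrts h2 v]
  congr 3
  ext x
  simp

/-- the sum of the characters of the values of a quadratic polynomial -/
lemma sum_quad (h2 : ringChar F ≠ 2) (A B : F) (hD : A^2 - 4*B ≠ 0) :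
    ∑ x : F, quadraticChar F (x^2 + A*x + B) = -1 := by
  have h2' : (2 : F) ≠ 0 := Ring.two_ne_zero h2
  have h4' : (4 : F) ≠ 0 := by
    have : (4 : F) = 2*2 := by norm_num
    rw [this]; exact mul_ne_zero h2' h2'
  have e1 : ∑ x : F, quadraticChar F (x^2 + A*x + B) =
      ∑ x : F, quadraticChar F (x^2 - (A^2 - 4*B)/4) := by
    rw [← Equiv.sum_comp (Equiv.addRight (A/2)) (fun x => quadraticChar F (x^2 - (A^2 - 4*B)/4))]
    refine sum_congr rfl fun x _ => ?_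
    congr 1
    simp only [Equiv.coe_addRight]
    field_simp
    ring
  rw [e1, sum_sq h2 (fun v => quadraticChar F (v - (A^2 - 4*B)/4))]
  simp only [add_mul, one_mul, sum_add_distrib]
  rw [Pool.Agent.Y105.RZ.jac h2 (div_ne_zero hD h4'), Pool.Agent.Y105.RZ.sum_shift h2]
  norm_num

/-- the inert case -/
theorem LocZ_inert {u v : F} (h2 : ringChar F ≠ 2) (hD : ¬ IsSquare ((a : F)^2 - 4*b))
    (hb : (b : F) ≠ 0) (hN : u^2 - a*u*v + b*v^2 ≠ 0) : LocZ F a b u v := by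
  have hD0 : (a : F)^2 - 4*b ≠ 0 := fun h => hD (h ▸ IsSquare.zero)
  have hf0 : ∀ x : F, x^2 + a*x + b ≠ 0 := by
    intro x hx
    exact hD ⟨2*x + a, by linear_combination (-4) * hx⟩
  by_cases hs : IsSquare (u^2 - a*u*v + b*v^2)
  · exact Or.inl (SqZ_inert h2 hD hN hs)
  have hNc : quadraticChar F (u^2 - a*u*v + b*v^2) = -1 :=
    quadraticChar_neg_one_iff_not_isSquare.2 hs
  -- a good abscissa
  obtain ⟨x, hx1, hx2⟩ : ∃ x : F, quadraticChar F (x^2 + a*x + b) ≠ 1 ∧ quadraticChar F x ≠ 1 := by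
    by_contra hcon
    push Not at hcon
    have hz : ∀ x : F, (1 - quadraticChar F (x^2 + a*x + b)) * (1 - quadraticChar F x) = 0 := by
      intro x
      by_cases h : quadraticChar F (x^2 + a*x + b) = 1
      · rw [h]; norm_num
      · rw [hcon x h]; norm_num
    have hsum : ∑ x : F, (1 - quadraticChar F (x^2 + a*x + b)) * (1 - quadraticChar F x) = 0 :=
      sum_eq_zero fun x _ => hz x
    have hexp : ∑ x : F, (1 - quadraticChar F (x^2 + a*x + b)) * (1 - quadraticChar F x) =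
        (∑ x : F, (1 + quadraticChar F (x^2 + a*x + b) * quadraticChar F x)) -
        (∑ x : F, quadraticChar F (x^2 + a*x + b)) - ∑ x : F, quadraticChar F x := by
      rw [← sum_sub_distrib, ← sum_sub_distrib]
      refine sum_congr rfl fun x _ => ?_
      ring
    have hnn : (0 : ℤ) ≤ ∑ x : F, (1 + quadraticChar F (x^2 + a*x + b) * quadraticChar F x) := by
      refine sum_nonneg fun x _ => ?_
      rw [← map_mul]
      by_cases h0 : (x^2 + a*x + b) * x = 0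
      · rw [h0]; simp
      · rcases quadraticChar_dichotomy h0 with h | h <;> rw [h] <;> norm_num
    rw [hexp, sum_quad h2 (a : F) (b : F) hD0, quadraticChar_sum_zero h2] at hsum
    linarith
  have hxc : quadraticChar F (x^2 + a*x + b) = -1 :=
    (quadraticChar_dichotomy (hf0 x)).resolve_left hx1
  by_cases hx0 : x = 0
  · -- the class of `(0, 0)`
    subst hx0
    refine Or.inr (Or.inl ?_)
    have hbc : quadraticChar F (b : F) = -1 := by
      rw [← hxc]; congr 1; ring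
    have e : ((b : F)*v)^2 - a*(b*v)*(a*v - u) + b*(a*v - u)^2 = b*(u^2 - a*u*v + b*v^2) := by ring
    have hne : ((b : F)*v)^2 - a*(b*v)*(a*v - u) + b*(a*v - u)^2 ≠ 0 := by
      rw [e]; exact mul_ne_zero hb hN
    refine SqZ_inert h2 hD hne ((quadraticChar_one_iff_isSquare hne).1 ?_)
    rw [e, map_mul, hbc, hNc]; norm_num
  · have hxc2 : quadraticChar F x = -1 := (quadraticChar_dichotomy hx0).resolve_left hx2
    refine Or.inr (Or.inr ?_)
    have hy0 : x*(x^2 + a*x + b) ≠ 0 := mul_ne_zero hx0 (hf0 x)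
    obtain ⟨y, hy⟩ := (quadraticChar_one_iff_isSquare hy0).1 (by
      rw [map_mul, hxc, hxc2]; norm_num)
    have hyne : y ≠ 0 := by
      rintro rfl
      exact hy0 (by rw [hy]; ring)
    refine PtZ_of (X := x) (Y := y) rfl hN hyne (by rw [hy]; ring) ?_
    set N : F := u^2 - a*u*v + b*v^2 with hNdef
    have e : ((x*(u - a*v) - b*v)/N)^2 - a*((x*(u - a*v) - b*v)/N)*((-x*v - u)/N) +
        b*((-x*v - u)/N)^2 = (x^2 + a*x + b)/N := by
      field_simp
      rw [hNdef]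
      ring
    have hne : ((x*(u - a*v) - b*v)/N)^2 - a*((x*(u - a*v) - b*v)/N)*((-x*v - u)/N) +
        b*((-x*v - u)/N)^2 ≠ 0 := by
      rw [e]; exact div_ne_zero (hf0 x) hN
    refine SqZ_inert h2 hD hne ((quadraticChar_one_iff_isSquare hne).1 ?_)
    rw [e]
    have e3 : (x^2 + a*x + b)/N = (x^2 + a*x + b)*N*(N⁻¹)^2 := by field_simp
    rw [e3, map_mul, map_mul, hxc, hNc, quadraticChar_sq_one' (inv_ne_zero hN)]
    norm_num

end finite

section padic

variable {p : ℕ} [hp : Fact p.Prime]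

lemma toZMod_eq_zero {z : ℤ_[p]} : PadicInt.toZMod z = 0 ↔ ‖z‖ < 1 := by
  rw [← RingHom.mem_ker, PadicInt.ker_toZMod, IsLocalRing.mem_maximalIdeal, PadicInt.mem_nonunits]

lemma norm_eq_one {z : ℤ_[p]} (h : PadicInt.toZMod z ≠ 0) : ‖z‖ = 1 := by
  have h1 := PadicInt.norm_le_one z
  have h2 : ¬ ‖z‖ < 1 := fun h3 => h (toZMod_eq_zero.2 h3)
  exact le_antisymm h1 (not_lt.1 h2)

lemma two_ne (h2 : p ≠ 2) : (2 : ZMod p) ≠ 0 := by
  intro h
  have h3 : ((2 : ℕ) : ZMod p) = 0 := by exact_mod_cast h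
  rw [ZMod.natCast_eq_zero_iff] at h3
  exact h2 ((Nat.prime_dvd_prime_iff_eq hp.out Nat.prime_two).1 h3)

lemma exists_lift (c : ZMod p) : ∃ w : ℤ_[p], PadicInt.toZMod w = c := by
  refine ⟨(c.val : ℤ_[p]), ?_⟩
  rw [map_natCast, ZMod.natCast_zmod_val]

/-- Hensel for squares -/
lemma lift_sq (h2 : p ≠ 2) {z : ℤ_[p]} (h0 : PadicInt.toZMod z ≠ 0)
    (hs : IsSquare (PadicInt.toZMod z)) : ∃ w : ℤ_[p], w^2 = z := by
  obtain ⟨c, hc⟩ := hs
  obtain ⟨w0, hw0⟩ := exists_lift c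
  have hc0 : c ≠ 0 := by rintro rfl; exact h0 (by rw [hc]; ring)
  let F : Polynomial ℤ_[p] := Polynomial.X^2 - Polynomial.C z
  have h1 : F.aeval w0 = w0^2 - z := by simp [F]
  have h3 : F.derivative.aeval w0 = 2*w0 := by simp [F, one_add_one_eq_two]
  have h4 : ‖2*w0‖ = 1 := by
    apply norm_eq_one
    rw [map_mul, hw0, map_ofNat]
    exact mul_ne_zero (two_ne h2) hc0
  obtain ⟨w, hw, -⟩ := hensels_lemma (p := p) (R := ℤ_[p]) (F := F) (a := w0) (by
    rw [h1, h3, h4, one_pow]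
    apply toZMod_eq_zero.1
    rw [map_sub, map_pow, hw0, hc]
    ring)
  refine ⟨w, ?_⟩
  have : F.aeval w = w^2 - z := by simp [F]
  rw [this] at hw
  linear_combination hw

lemma inv_of {z : ℤ_[p]} (h : PadicInt.toZMod z ≠ 0) : ∃ w : ℤ_[p], z*w = 1 := by
  have h1 : IsUnit z := PadicInt.isUnit_iff.2 (norm_eq_one h)
  obtain ⟨u, rfl⟩ := h1
  exact ⟨((u⁻¹ : ℤ_[p]ˣ) : ℤ_[p]), by rw [← Units.val_mul, mul_inv_cancel, Units.val_one]⟩

variable {a b : ℤ}

lemma c2 : (((2 : ℤ_[p])) : ℚ_[p]) = 2 := by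
  have h : (2 : ℤ_[p]) = 1 + 1 := by norm_num
  rw [h, PadicInt.coe_add, PadicInt.coe_one]
  norm_num

lemma coe_ne {t : ℤ_[p]} (h : t ≠ 0) : (t : ℚ_[p]) ≠ 0 := fun h0 => h (Subtype.ext h0)

/-- elements near one are squares -/
lemma near_one (h2 : p ≠ 2) {u v : ℤ_[p]} (hu : PadicInt.toZMod u = 1)
    (hv : PadicInt.toZMod v = 0) : SqZ ℚ_[p] a b (u : ℚ_[p]) (v : ℚ_[p]) := by
  have t2 := two_ne (p := p) h2
  obtain ⟨n, hn⟩ : ∃ n : ℤ_[p], n^2 = u^2 - a*u*v + b*v^2 := by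
    apply lift_sq h2
    · rw [map_add, map_sub, map_mul, map_mul, map_mul, map_pow, map_pow, hu, hv]; simp
    · rw [map_add, map_sub, map_mul, map_mul, map_mul, map_pow, map_pow, hu, hv]; simp
  obtain ⟨n, hn, hn1⟩ : ∃ n : ℤ_[p], n^2 = u^2 - a*u*v + b*v^2 ∧ PadicInt.toZMod n = 1 := by
    have h1 : (PadicInt.toZMod n)^2 = 1 := by
      rw [← map_pow, hn, map_add, map_sub, map_mul, map_mul, map_mul, map_pow, map_pow, hu, hv]
      simp
    have h1' : (PadicInt.toZMod n - 1) * (PadicInt.toZMod n + 1) = 0 := by linear_combination h1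
    rcases mul_eq_zero.1 h1' with h | h
    · exact ⟨n, hn, sub_eq_zero.1 h⟩
    · exact ⟨-n, by rw [neg_sq, hn], by rw [map_neg, eq_neg_of_add_eq_zero_left h, neg_neg]⟩
  have e4 : PadicInt.toZMod (2*u - a*v + 2*n : ℤ_[p]) = 2*2 := by
    rw [map_add, map_sub, map_mul, map_mul, map_mul, hu, hv, hn1, map_ofNat]
    ring
  obtain ⟨t, ht⟩ := lift_sq h2 (z := (2*u - a*v + 2*n : ℤ_[p])) (by rw [e4]; exact mul_ne_zero t2 t2)
    (by rw [e4]; exact ⟨2, rfl⟩)
  have ht0 : t ≠ 0 := by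
    rintro rfl
    have : PadicInt.toZMod (2*u - a*v + 2*n : ℤ_[p]) = 0 := by rw [← ht]; simp
    rw [e4] at this
    exact mul_ne_zero t2 t2 this
  refine SqZ_of_trace (n := (n : ℚ_[p])) (t := (t : ℚ_[p])) two_ne_zero ?_ ?_ ?_
  · have := congrArg (fun z : ℤ_[p] => (z : ℚ_[p])) hn
    push_cast at this
    exact this
  · have := congrArg (fun z : ℤ_[p] => (z : ℚ_[p])) ht
    push_cast [c2] at this
    exact this
  · exact coe_ne ht0

/-- lifting squares -/
lemma SqZ_lift (h2 : p ≠ 2) {u v : ℤ_[p]}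
    (hN : PadicInt.toZMod (u^2 - a*u*v + b*v^2 : ℤ_[p]) ≠ 0)
    (h : SqZ (ZMod p) a b (PadicInt.toZMod u) (PadicInt.toZMod v)) :
    SqZ ℚ_[p] a b (u : ℚ_[p]) (v : ℚ_[p]) := by
  obtain ⟨g, h, e1, e2⟩ := h
  obtain ⟨G, hG⟩ := exists_lift g
  obtain ⟨H, hH⟩ := exists_lift h
  -- the norm of the root
  set N : ℤ_[p] := G^2 - a*G*H + b*H^2 with hNd
  have hN0 : (PadicInt.toZMod N)^2 = PadicInt.toZMod (u^2 - a*u*v + b*v^2 : ℤ_[p]) := by
    rw [hNd]
    simp only [map_add, map_sub, map_mul, map_pow, map_intCast, hG, hH, e1, e2]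
    ring
  have hN1 : PadicInt.toZMod N ≠ 0 := by
    intro h0
    rw [h0] at hN0
    exact hN (by rw [← hN0]; ring)
  obtain ⟨W, hW⟩ := inv_of hN1
  have hW' : PadicInt.toZMod N * PadicInt.toZMod W = 1 := by rw [← map_mul, hW, map_one]
  -- the quotient by the square of the root
  set A : ℤ_[p] := (G - a*H)^2 - b*H^2 with hA
  set B : ℤ_[p] := -2*(G - a*H)*H - a*H^2 with hB
  set c : ℤ_[p] := (u*A - b*v*B)*W^2 with hc
  set d : ℤ_[p] := (u*B + v*A - a*v*B)*W^2 with hd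
  have hc1 : PadicInt.toZMod c = 1 := by
    have : PadicInt.toZMod c = (PadicInt.toZMod N * PadicInt.toZMod W)^2 := by
      rw [hc, hA, hB, hNd]
      simp only [map_add, map_sub, map_mul, map_pow, map_intCast, map_neg, map_ofNat, hG, hH, e1, e2]
      ring
    rw [this, hW', one_pow]
  have hd1 : PadicInt.toZMod d = 0 := by
    rw [hd, hA, hB]
    simp only [map_add, map_sub, map_mul, map_pow, map_intCast, map_neg, map_ofNat, hG, hH, e1, e2]
    ring
  obtain ⟨g', h', f1, f2⟩ := near_one (a := a) (b := b) h2 hc1 hd1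
  have hNW : (N : ℚ_[p]) * W = 1 := by
    have := congrArg (fun z : ℤ_[p] => (z : ℚ_[p])) hW
    push_cast at this
    exact this
  -- multiply back
  refine ⟨g'*G - b*h'*H, g'*H + h'*G - a*h'*H, ?_, ?_⟩
  · have k1 : (u : ℚ_[p]) = (c : ℚ_[p]) * (G^2 - b*H^2) - b*d*(2*G*H - a*H^2) := by
      have k2 : ((c : ℚ_[p]) * (G^2 - b*H^2) - b*d*(2*G*H - a*H^2)) = u*(N*W)^2 := by
        rw [hc, hd, hA, hB, hNd]
        push_cast [c2]
        ring
      rw [k2, hNW]; ring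
    rw [k1, f1, f2]
    ring
  · have k1 : (v : ℚ_[p]) = (c : ℚ_[p]) * (2*G*H - a*H^2) + d*(G^2 - b*H^2) - a*d*(2*G*H - a*H^2) := by
      have k2 : ((c : ℚ_[p]) * (2*G*H - a*H^2) + d*(G^2 - b*H^2) - a*d*(2*G*H - a*H^2)) = v*(N*W)^2 := by
        rw [hc, hd, hA, hB, hNd]
        push_cast [c2]
        ring
      rw [k2, hNW]; ring
    rw [k1, f1, f2]
    ring

/-- lifting points -/
lemma PtZ_lift (h2 : p ≠ 2) {u v : ℤ_[p]}
    (hN : PadicInt.toZMod (u^2 - a*u*v + b*v^2 : ℤ_[p]) ≠ 0)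
    (h : PtZ (ZMod p) a b (PadicInt.toZMod u) (PadicInt.toZMod v)) :
    PtZ ℚ_[p] a b (u : ℚ_[p]) (v : ℚ_[p]) := by
  obtain ⟨X, Y, g, h, hY, e0, e1, e2⟩ := h
  obtain ⟨X', hX⟩ := exists_lift X
  have r1 : PadicInt.toZMod (X'*(X'^2 + a*X' + b) : ℤ_[p]) = Y^2 := by
    rw [e0]
    simp only [map_add, map_mul, map_pow, map_intCast, hX]
  obtain ⟨Y', hY'⟩ := lift_sq h2 (z := (X'*(X'^2 + a*X' + b) : ℤ_[p])) (by rw [r1]; exact pow_ne_zero 2 hY)
    (by rw [r1]; exact ⟨Y, by ring⟩)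
  have hY0 : Y' ≠ 0 := by
    rintro rfl
    have : Y^2 = 0 := by rw [← r1, ← hY']; simp
    exact pow_ne_zero 2 hY this
  obtain ⟨W, hW⟩ := inv_of hN
  have hW' : PadicInt.toZMod (u^2 - a*u*v + b*v^2 : ℤ_[p]) * PadicInt.toZMod W = 1 := by
    rw [← map_mul, hW, map_one]
  simp only [map_add, map_sub, map_mul, map_pow, map_intCast] at hW'
  have hXf : X^2 + a*X + b ≠ 0 := by
    intro h0
    rw [h0, mul_zero] at e0
    exact pow_ne_zero 2 hY e0
  have hW0 : (W : ℚ_[p]) ≠ 0 := by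
    apply coe_ne
    rintro rfl
    rw [mul_zero] at hW
    exact zero_ne_one hW
  have hNW : ((u : ℚ_[p])^2 - a*u*v + b*v^2) * W = 1 := by
    have := congrArg (fun z : ℤ_[p] => (z : ℚ_[p])) hW
    push_cast at this
    exact this
  have hN0 : ((u : ℚ_[p])^2 - a*u*v + b*v^2) ≠ 0 := left_ne_zero_of_mul (by rw [hNW]; exact one_ne_zero)
  refine PtZ_of (X := (X' : ℚ_[p])) (Y := (Y' : ℚ_[p])) rfl hN0 (coe_ne hY0) ?_ ?_
  · have := congrArg (fun z : ℤ_[p] => (z : ℚ_[p])) hY'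
    push_cast at this
    exact this
  · have k := SqZ_lift (a := a) (b := b) h2 (u := ((X'*(u - a*v) - b*v)*W : ℤ_[p])) (v := ((-X'*v - u)*W : ℤ_[p])) ?_ ?_
    · push_cast at k
      have q : (W : ℚ_[p]) = 1/((u : ℚ_[p])^2 - a*u*v + b*v^2) := by
        rw [eq_div_iff hN0]
        linear_combination hNW
      rw [div_eq_mul_one_div, div_eq_mul_one_div (-(X' : ℚ_[p])*v - u), ← q]
      exact k
    · have : PadicInt.toZMod (((X'*(u - a*v) - b*v)*W)^2 - a*((X'*(u - a*v) - b*v)*W)*((-X'*v - u)*W) +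
          b*((-X'*v - u)*W)^2 : ℤ_[p]) = (X^2 + a*X + b) * PadicInt.toZMod W * (((PadicInt.toZMod u)^2 - a*PadicInt.toZMod u*PadicInt.toZMod v + b*(PadicInt.toZMod v)^2) * PadicInt.toZMod W) := by
        simp only [map_add, map_sub, map_mul, map_pow, map_intCast, map_neg, hX]
        ring
      rw [this, hW', mul_one]
      refine mul_ne_zero hXf (right_ne_zero_of_mul (a := PadicInt.toZMod u ^ 2 - a * PadicInt.toZMod u * PadicInt.toZMod v + b * PadicInt.toZMod v ^ 2) (by rw [hW']; exact one_ne_zero))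
    · refine ⟨g, h, ?_, ?_⟩
      · simp only [map_add, map_sub, map_mul, map_pow, map_intCast, map_neg, hX]
        linear_combination (PadicInt.toZMod W * (PadicInt.toZMod u - a*PadicInt.toZMod v)) * e1 + (b*PadicInt.toZMod v*PadicInt.toZMod W)*e2 + (g^2 - b*h^2)*hW'
      · simp only [map_add, map_sub, map_mul, map_pow, map_intCast, map_neg, hX]
        linear_combination (-PadicInt.toZMod v * PadicInt.toZMod W) * e1 + (PadicInt.toZMod u*PadicInt.toZMod W)*e2 + (2*g*h - a*h^2)*hW'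

/-- lifting the local condition -/
lemma LocZ_lift (h2 : p ≠ 2) {u v : ℤ_[p]} (hb : (b : ZMod p) ≠ 0)
    (hN : PadicInt.toZMod (u^2 - a*u*v + b*v^2 : ℤ_[p]) ≠ 0)
    (h : LocZ (ZMod p) a b (PadicInt.toZMod u) (PadicInt.toZMod v)) :
    LocZ ℚ_[p] a b (u : ℚ_[p]) (v : ℚ_[p]) := by
  rcases h with h | h | h
  · exact Or.inl (SqZ_lift h2 hN h)
  · refine Or.inr (Or.inl ?_)
    have k := SqZ_lift (a := a) (b := b) h2 (u := (b*v : ℤ_[p])) (v := (a*v - u : ℤ_[p])) ?_ ?_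
    · push_cast at k
      exact k
    · have e : ((b*v : ℤ_[p])^2 - a*(b*v)*(a*v - u) + b*(a*v - u)^2) = b*(u^2 - a*u*v + b*v^2) := by
        ring
      rw [e, map_mul, map_intCast]
      exact mul_ne_zero hb hN
    · simp only [map_mul, map_sub, map_intCast]
      exact h
  · exact Or.inr (Or.inr (PtZ_lift h2 hN h))

end padic

section split

variable {p : ℕ} [hp : Fact p.Prime]

/-- a product of two units with equal characters is a square: `z = w r²` -/
lemma sq_quot (h2 : p ≠ 2) {z w : ℤ_[p]} (hz : PadicInt.toZMod z ≠ 0) (hw : PadicInt.toZMod w ≠ 0)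
    (h : quadraticChar (ZMod p) (PadicInt.toZMod z) = quadraticChar (ZMod p) (PadicInt.toZMod w)) :
    ∃ r : ℚ_[p], (z : ℚ_[p]) = w * r^2 := by
  have h1 : PadicInt.toZMod (z*w) ≠ 0 := by rw [map_mul]; exact mul_ne_zero hz hw
  have h3 : quadraticChar (ZMod p) (PadicInt.toZMod (z*w)) = 1 := by
    rw [map_mul, map_mul, h, ← map_mul, ← pow_two, quadraticChar_sq_one' hw]
  obtain ⟨c, hc⟩ := lift_sq h2 h1 ((quadraticChar_one_iff_isSquare h1).1 h3)
  have hw0 : (w : ℚ_[p]) ≠ 0 := by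
    apply coe_ne
    rintro rfl
    exact hw (map_zero _)
  refine ⟨c/w, ?_⟩
  have := congrArg (fun z : ℤ_[p] => (z : ℚ_[p])) hc
  push_cast at this
  rw [div_pow, this]
  field_simp

lemma unit_sq (h2 : p ≠ 2) {z : ℤ_[p]} (hz : PadicInt.toZMod z ≠ 0)
    (h : quadraticChar (ZMod p) (PadicInt.toZMod z) = 1) :
    ∃ r : ℚ_[p], r ≠ 0 ∧ r^2 = (z : ℚ_[p]) := by
  obtain ⟨c, hc⟩ := lift_sq h2 hz ((quadraticChar_one_iff_isSquare hz).1 h)
  refine ⟨c, ?_, ?_⟩
  · apply coe_ne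
    rintro rfl
    exact hz (by rw [← hc]; simp)
  · have := congrArg (fun z : ℤ_[p] => (z : ℚ_[p])) hc
    push_cast at this
    exact this

/-- the class of a point of order two -/
lemma T1_case (h2 : p ≠ 2) {M : ℤ} (hM : (M : ZMod p) ≠ 0) {x y : ℤ} {a E1 E2 z1 z2 : ℤ_[p]}
    (ha : a^2 = a - 2) (hE1 : E1 = (M : ℤ_[p])*(a - 11)) (hE2 : E2 = (M : ℤ_[p])*(-a - 10))
    (h1 : z1 = (x : ℤ_[p]) + (y : ℤ_[p])*a) (h2' : z2 = (x : ℤ_[p]) + (y : ℤ_[p])*(1 - a))
    (hA : PadicInt.toZMod E1 ≠ 0) (hAB : PadicInt.toZMod (E1 - E2) ≠ 0)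
    (hz1 : PadicInt.toZMod z1 ≠ 0) (hz2 : PadicInt.toZMod z2 ≠ 0)
    (k1 : quadraticChar (ZMod p) (PadicInt.toZMod (E1*(E1 - E2))) =
      quadraticChar (ZMod p) (PadicInt.toZMod z1))
    (k2 : quadraticChar (ZMod p) (PadicInt.toZMod (E1 - E2)) =
      quadraticChar (ZMod p) (PadicInt.toZMod z2)) :
    PtZ ℚ_[p] (21*M) (112*M^2) ((x : ℚ_[p]) + 11*y) ((y : ℚ_[p])/M) := by
  have hpp : PadicInt.toZMod (p : ℤ_[p]) = 0 := by rw [map_natCast, ZMod.natCast_self]
  have hMne : M ≠ 0 := by rintro rfl; exact hM (by simp)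
  have aQ : (a : ℚ_[p])^2 = a - 2 := by
    have := congrArg (fun z : ℤ_[p] => (z : ℚ_[p])) ha
    push_cast [c2] at this
    exact this
  obtain ⟨r1, hr1⟩ := sq_quot h2 (z := E1*(E1 - E2)) (w := z1)
    (by rw [map_mul]; exact mul_ne_zero hA hAB) hz1 k1
  have hq : PadicInt.toZMod ((E1 - E2)*(1 + E1*(p : ℤ_[p])^2)) = PadicInt.toZMod (E1 - E2) := by
    simp only [map_mul, map_add, map_one, map_pow, hpp]
    ring
  obtain ⟨r2, hr2⟩ := sq_quot h2 (z := (E1 - E2)*(1 + E1*(p : ℤ_[p])^2)) (w := z2)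
    (by rw [hq]; exact hAB) hz2 (by rw [hq]; exact k2)
  have hq3 : PadicInt.toZMod ((1 + (E1 - E2)*(p : ℤ_[p])^2)*(1 + E1*(p : ℤ_[p])^2)) = 1 := by
    simp only [map_mul, map_add, map_one, map_pow, hpp]
    ring
  obtain ⟨r3, hr3, hr3'⟩ := unit_sq h2 (z := (1 + (E1 - E2)*(p : ℤ_[p])^2)*(1 + E1*(p : ℤ_[p])^2))
    (by rw [hq3]; exact one_ne_zero) (by rw [hq3, map_one])
  have hE1ne : (E1 : ℚ_[p]) ≠ 0 := by
    apply coe_ne; intro h; exact hA (by rw [h, map_zero])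
  have hEne : ((E1 - E2 : ℤ_[p]) : ℚ_[p]) ≠ 0 := by
    apply coe_ne; intro h; exact hAB (by rw [h, map_zero])
  have hpne : (p : ℚ_[p]) ≠ 0 := by exact_mod_cast hp.out.ne_zero
  have z1Q : (z1 : ℚ_[p]) = x + y*a := by rw [h1]; push_cast; rfl
  have z2Q : (z2 : ℚ_[p]) = x + y*(1 - a) := by rw [h2']; push_cast; rfl
  have c11 : (((11 : ℤ_[p])) : ℚ_[p]) = 11 := rfl
  have c10 : (((10 : ℤ_[p])) : ℚ_[p]) = 10 := rfl
  have E1Q : (E1 : ℚ_[p]) = M*(a - 11) := by rw [hE1]; push_cast [c11]; rfl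
  have E2Q : (E2 : ℚ_[p]) = M*(-a - 10) := by rw [hE2]; push_cast [c10]; rfl
  push_cast at hr1 hr2 hr3' hEne
  refine ptz_split (L := ℚ_[p]) (D := M) hMne (x := (x : ℚ_[p])) (y := (y : ℚ_[p])) (a := (a : ℚ_[p]))
    (X := (E1 : ℚ_[p]) + E1*(E1 - E2)*p^2) (Y := E1*(E1 - E2)*p*r3) (w₁ := p*r1) (w₂ := r2) aQ ?_ ?_ ?_ ?_
  · exact mul_ne_zero (mul_ne_zero (mul_ne_zero hE1ne hEne) hpne) hr3
  · rw [← E1Q, ← E2Q]
    linear_combination (E1*(E1 - E2)*p : ℚ_[p])^2 * hr3'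
  · rw [← E1Q, ← z1Q]
    linear_combination (p : ℚ_[p])^2 * hr1
  · rw [← E2Q, ← z2Q]
    linear_combination hr2

/-- the split case -/
theorem split_case (h2 : p ≠ 2) (h7 : p ≠ 7) {M : ℤ} (hM : (M : ZMod p) ≠ 0) {x y : ℤ}
    (hN : ((x^2 + x*y + 2*y^2 : ℤ) : ZMod p) ≠ 0) {a : ℤ_[p]} (ha : a^2 = a - 2) :
    LocZ ℚ_[p] (21*M) (112*M^2) ((x : ℚ_[p]) + 11*y) ((y : ℚ_[p])/M) := by
  have hMne : M ≠ 0 := by rintro rfl; exact hM (by simp)
  have hMQ : (M : ℚ_[p]) ≠ 0 := by exact_mod_cast hMne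
  have t2 := two_ne (p := p) h2
  have t7 : (7 : ZMod p) ≠ 0 := by
    intro h
    have h3 : ((7 : ℕ) : ZMod p) = 0 := by exact_mod_cast h
    rw [ZMod.natCast_eq_zero_iff] at h3
    exact h7 ((Nat.prime_dvd_prime_iff_eq hp.out (by norm_num)).1 h3)
  have hF : ringChar (ZMod p) ≠ 2 := by rw [ZMod.ringChar_zmod_n]; exact h2
  obtain ⟨E1, hE1⟩ : ∃ E : ℤ_[p], E = (M : ℤ_[p])*(a - 11) := ⟨_, rfl⟩
  obtain ⟨E2, hE2⟩ : ∃ E : ℤ_[p], E = (M : ℤ_[p])*(-a - 10) := ⟨_, rfl⟩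
  obtain ⟨z1, h1⟩ : ∃ E : ℤ_[p], E = (x : ℤ_[p]) + (y : ℤ_[p])*a := ⟨_, rfl⟩
  obtain ⟨z2, h2'⟩ : ∃ E : ℤ_[p], E = (x : ℤ_[p]) + (y : ℤ_[p])*(1 - a) := ⟨_, rfl⟩
  have hzz : z1*z2 = ((x^2 + x*y + 2*y^2 : ℤ) : ℤ_[p]) := by
    rw [h1, h2']; push_cast; linear_combination (-(y : ℤ_[p])^2) * ha
  have hEE : E1*E2 = 2*2*2*2*7*(M : ℤ_[p])^2 := by
    rw [hE1, hE2]; linear_combination (-(M : ℤ_[p])^2) * ha
  have hEd : (E1 - E2)^2 = -7*(M : ℤ_[p])^2 := by
    rw [hE1, hE2]; linear_combination (4*(M : ℤ_[p])^2) * ha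
  have hzz0 : PadicInt.toZMod z1 * PadicInt.toZMod z2 ≠ 0 := by
    rw [← map_mul, hzz, map_intCast]; exact hN
  have hEE0 : PadicInt.toZMod E1 * PadicInt.toZMod E2 ≠ 0 := by
    rw [← map_mul, hEE]
    simp only [map_mul, map_pow, map_ofNat, map_intCast]
    exact mul_ne_zero (mul_ne_zero (mul_ne_zero (mul_ne_zero (mul_ne_zero t2 t2) t2) t2) t7)
      (pow_ne_zero 2 hM)
  have hz1 := left_ne_zero_of_mul hzz0
  have hz2 := right_ne_zero_of_mul hzz0
  have hA := left_ne_zero_of_mul hEE0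
  have hB := right_ne_zero_of_mul hEE0
  have hAB : PadicInt.toZMod (E1 - E2) ≠ 0 := by
    intro h
    have h3 : (PadicInt.toZMod (E1 - E2))^2 = -7*(M : ZMod p)^2 := by
      rw [← map_pow, hEd]
      simp only [map_mul, map_neg, map_pow, map_ofNat, map_intCast]
    rw [h] at h3
    have h4 : (7 : ZMod p)*(M : ZMod p)^2 = 0 := by linear_combination h3
    exact mul_ne_zero t7 (pow_ne_zero 2 hM) h4
  have hAB' : PadicInt.toZMod E1 ≠ PadicInt.toZMod E2 := by
    intro h; apply hAB; rw [map_sub, h, sub_self]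
  have aQ : (a : ℚ_[p])^2 = a - 2 := by
    have := congrArg (fun z : ℤ_[p] => (z : ℚ_[p])) ha
    push_cast [c2] at this
    exact this
  have z1Q : (z1 : ℚ_[p]) = x + y*a := by rw [h1]; push_cast; rfl
  have z2Q : (z2 : ℚ_[p]) = x + y*(1 - a) := by rw [h2']; push_cast; rfl
  have c11 : (((11 : ℤ_[p])) : ℚ_[p]) = 11 := rfl
  have c10 : (((10 : ℤ_[p])) : ℚ_[p]) = 10 := rfl
  have E1Q : (E1 : ℚ_[p]) = M*(a - 11) := by rw [hE1]; push_cast [c11]; rfl
  have E2Q : (E2 : ℚ_[p]) = M*(-a - 10) := by rw [hE2]; push_cast [c10]; rfl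
  have hE12 : (E1 : ℚ_[p]) ≠ E2 := by
    intro h
    have h3 : E1 - E2 = 0 := by rw [sub_eq_zero]; exact Subtype.ext h
    exact hAB (by rw [h3, map_zero])
  have hsumE : (((21*M : ℤ) : ℚ_[p])) = -((E1 : ℚ_[p]) + E2) := by
    rw [E1Q, E2Q]; push_cast; ring
  have hprodE : (((112*M^2 : ℤ) : ℚ_[p])) = (E1 : ℚ_[p])*E2 := by
    rw [E1Q, E2Q]; push_cast; linear_combination ((M : ℚ_[p])^2) * aQ
  -- squares of the characters
  have sq1 : quadraticChar (ZMod p) (PadicInt.toZMod z1) * quadraticChar (ZMod p) (PadicInt.toZMod z1) = 1 := by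
    rw [← map_mul, ← pow_two, quadraticChar_sq_one' hz1]
  have sq2 : quadraticChar (ZMod p) (PadicInt.toZMod z2) * quadraticChar (ZMod p) (PadicInt.toZMod z2) = 1 := by
    rw [← map_mul, ← pow_two, quadraticChar_sq_one' hz2]
  have sqA : quadraticChar (ZMod p) (PadicInt.toZMod E1) * quadraticChar (ZMod p) (PadicInt.toZMod E1) = 1 := by
    rw [← map_mul, ← pow_two, quadraticChar_sq_one' hA]
  have sqB : quadraticChar (ZMod p) (PadicInt.toZMod E2) * quadraticChar (ZMod p) (PadicInt.toZMod E2) = 1 := by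
    rw [← map_mul, ← pow_two, quadraticChar_sq_one' hB]
  have d1 : quadraticChar (ZMod p) (PadicInt.toZMod z1) * quadraticChar (ZMod p) (PadicInt.toZMod z2) = 1 ∨
      quadraticChar (ZMod p) (PadicInt.toZMod z1) * quadraticChar (ZMod p) (PadicInt.toZMod z2) = -1 := by
    rw [← map_mul]; exact quadraticChar_dichotomy hzz0
  rcases Pool.Agent.Y105.RZ.classes hF hA hB hAB' d1 (quadraticChar_dichotomy hz1) with
    ⟨u, q0, q1, q2⟩ | ⟨q1, q2⟩ | ⟨q1, q2⟩ | ⟨q1, q2⟩ | ⟨q1, q2⟩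
  · -- a point with `Y ≠ 0` over the residue field
    refine Or.inr (Or.inr ?_)
    obtain ⟨X, hX⟩ := exists_lift u
    have q2' : quadraticChar (ZMod p) (u - PadicInt.toZMod E2) =
        quadraticChar (ZMod p) (PadicInt.toZMod z2) := by
      rw [q2]; linear_combination (quadraticChar (ZMod p) (PadicInt.toZMod z2)) * sq1
    have hX1 : PadicInt.toZMod (X - E1) = u - PadicInt.toZMod E1 := by rw [map_sub, hX]
    have hX2 : PadicInt.toZMod (X - E2) = u - PadicInt.toZMod E2 := by rw [map_sub, hX]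
    have n0 : u ≠ 0 := by
      rintro rfl
      rw [quadraticChar_zero] at q0
      rcases d1 with h | h <;> rw [h] at q0 <;> norm_num at q0
    have n1 : u - PadicInt.toZMod E1 ≠ 0 := by
      intro h
      rw [h, quadraticChar_zero] at q1
      rw [← q1] at sq1
      norm_num at sq1
    have n2 : u - PadicInt.toZMod E2 ≠ 0 := by
      intro h
      rw [h, quadraticChar_zero] at q2'
      rw [← q2'] at sq2
      norm_num at sq2
    obtain ⟨r1, hr1⟩ := sq_quot h2 (z := X - E1) (w := z1) (by rw [hX1]; exact n1) hz1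
      (by rw [hX1, q1])
    obtain ⟨r2, hr2⟩ := sq_quot h2 (z := X - E2) (w := z2) (by rw [hX2]; exact n2) hz2
      (by rw [hX2, q2'])
    have e3 : PadicInt.toZMod (X*((X - E1)*(X - E2))) = u*((u - PadicInt.toZMod E1)*(u - PadicInt.toZMod E2)) := by
      rw [map_mul, map_mul, hX1, hX2, hX]
    obtain ⟨r3, hr3, hr3'⟩ := unit_sq h2 (z := X*((X - E1)*(X - E2)))
      (by rw [e3]; exact mul_ne_zero n0 (mul_ne_zero n1 n2))
      (by
        rw [e3, map_mul, map_mul, q0, q1, q2']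
        linear_combination (quadraticChar (ZMod p) (PadicInt.toZMod z2) * quadraticChar (ZMod p) (PadicInt.toZMod z2)) * sq1 + sq2)
    push_cast at hr1 hr2 hr3'
    refine ptz_split (L := ℚ_[p]) (D := M) hMne (x := (x : ℚ_[p])) (y := (y : ℚ_[p])) (a := (a : ℚ_[p]))
      (X := (X : ℚ_[p])) (Y := r3) (w₁ := r1) (w₂ := r2) aQ hr3 ?_ ?_ ?_
    · rw [← E1Q, ← E2Q, hr3']
    · rw [← E1Q, ← z1Q, hr1]
    · rw [← E2Q, ← z2Q, hr2]
  · -- squares
    refine Or.inl ?_
    have q1' : quadraticChar (ZMod p) (PadicInt.toZMod z2) = 1 := by rw [q2, one_mul] at q1; exact q1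
    obtain ⟨r1, -, hr1⟩ := unit_sq h2 hz1 q2
    obtain ⟨r2, -, hr2⟩ := unit_sq h2 hz2 q1'
    refine SqZ_split hE12 hsumE hprodE ⟨r1, ?_⟩ ⟨r2, ?_⟩
    · rw [← pow_two, hr1, z1Q, E1Q]; field_simp; ring
    · rw [← pow_two, hr2, z2Q, E2Q]; field_simp; ring
  · -- the class of `(0, 0)`
    refine Or.inr (Or.inl ?_)
    have hnA : PadicInt.toZMod (-E1*z1) ≠ 0 := by
      rw [map_mul, map_neg]; exact mul_ne_zero (neg_ne_zero.2 hA) hz1
    have hnB : PadicInt.toZMod (-E2*z2) ≠ 0 := by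
      rw [map_mul, map_neg]; exact mul_ne_zero (neg_ne_zero.2 hB) hz2
    have sqm : quadraticChar (ZMod p) (-1) * quadraticChar (ZMod p) (-1) = 1 := by
      rw [← map_mul]; norm_num
    have qA : quadraticChar (ZMod p) (-PadicInt.toZMod E1) = quadraticChar (ZMod p) (-1) * quadraticChar (ZMod p) (PadicInt.toZMod E1) := by
      rw [← map_mul]; congr 1; ring
    have qB : quadraticChar (ZMod p) (-PadicInt.toZMod E2) = quadraticChar (ZMod p) (-1) * quadraticChar (ZMod p) (PadicInt.toZMod E2) := by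
      rw [← map_mul]; congr 1; ring
    rw [map_mul] at q1
    rw [qA] at q2
    obtain ⟨r1, -, hr1⟩ := unit_sq h2 hnA (by
      rw [map_mul, map_mul, map_neg, qA, q2]
      linear_combination (quadraticChar (ZMod p) (PadicInt.toZMod E1) * quadraticChar (ZMod p) (PadicInt.toZMod E1)) * sqm + sqA)
    obtain ⟨r2, -, hr2⟩ := unit_sq h2 hnB (by
      have hz2c : quadraticChar (ZMod p) (PadicInt.toZMod z2) = quadraticChar (ZMod p) (-1) * quadraticChar (ZMod p) (PadicInt.toZMod E2) := by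
        calc quadraticChar (ZMod p) (PadicInt.toZMod z2) =
            quadraticChar (ZMod p) (PadicInt.toZMod z1) * (quadraticChar (ZMod p) (PadicInt.toZMod z1) * quadraticChar (ZMod p) (PadicInt.toZMod z2)) := by
              linear_combination (-quadraticChar (ZMod p) (PadicInt.toZMod z2)) * sq1
          _ = _ := by
              rw [q1, q2]
              linear_combination (quadraticChar (ZMod p) (-1) * quadraticChar (ZMod p) (PadicInt.toZMod E2)) * sqA
      rw [map_mul, map_mul, map_neg, qB, hz2c]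
      linear_combination (quadraticChar (ZMod p) (PadicInt.toZMod E2) * quadraticChar (ZMod p) (PadicInt.toZMod E2)) * sqm + sqB)
    push_cast at hr1 hr2
    have f1 : (E1 : ℚ_[p])^2 + 21*M*E1 + 112*M^2 = 0 := by
      rw [E1Q]; linear_combination ((M : ℚ_[p])^2) * aQ
    have f2 : (E2 : ℚ_[p])^2 + 21*M*E2 + 112*M^2 = 0 := by
      rw [E2Q]; linear_combination ((M : ℚ_[p])^2) * aQ
    have g1 : (z1 : ℚ_[p]) = (x + 11*y) + (y/M)*E1 := by
      rw [z1Q, E1Q]; field_simp; ring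
    have g2 : (z2 : ℚ_[p]) = (x + 11*y) + (y/M)*E2 := by
      rw [z2Q, E2Q]; field_simp; ring
    refine SqZ_split hE12 hsumE hprodE ⟨r1, ?_⟩ ⟨r2, ?_⟩
    · rw [← pow_two, hr1, g1]; push_cast; linear_combination ((y : ℚ_[p])/M) * f1
    · rw [← pow_two, hr2, g2]; push_cast; linear_combination ((y : ℚ_[p])/M) * f2
  · -- the class of `(E1, 0)`
    refine Or.inr (Or.inr ?_)
    have e : PadicInt.toZMod E1 * (PadicInt.toZMod E1 - PadicInt.toZMod E2) = PadicInt.toZMod (E1*(E1 - E2)) := by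
      rw [map_mul, map_sub]
    rw [e] at q2
    refine T1_case h2 hM ha hE1 hE2 h1 h2' hA hAB hz1 hz2 q2.symm ?_
    -- `χ(E1 - E2) = χ(z2)`
    have e1 : quadraticChar (ZMod p) (PadicInt.toZMod (E1*(E1 - E2))) =
        quadraticChar (ZMod p) (PadicInt.toZMod E1) * quadraticChar (ZMod p) (PadicInt.toZMod (E1 - E2)) := by
      rw [map_mul, map_mul]
    rw [e1] at q2
    calc quadraticChar (ZMod p) (PadicInt.toZMod (E1 - E2)) =
        quadraticChar (ZMod p) (PadicInt.toZMod E1) * (quadraticChar (ZMod p) (PadicInt.toZMod E1) * quadraticChar (ZMod p) (PadicInt.toZMod (E1 - E2))) := by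
          linear_combination (-quadraticChar (ZMod p) (PadicInt.toZMod (E1 - E2))) * sqA
      _ = (quadraticChar (ZMod p) (PadicInt.toZMod z1) * quadraticChar (ZMod p) (PadicInt.toZMod z2)) * quadraticChar (ZMod p) (PadicInt.toZMod z1) := by
          rw [q1, q2]
      _ = _ := by linear_combination (quadraticChar (ZMod p) (PadicInt.toZMod z2)) * sq1
  · -- the class of `(E2, 0)`
    refine Or.inr (Or.inr ?_)
    have hBA : PadicInt.toZMod (E2 - E1) ≠ 0 := by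
      rw [map_sub]; exact sub_ne_zero.2 (Ne.symm hAB')
    have e : PadicInt.toZMod E2 - PadicInt.toZMod E1 = PadicInt.toZMod (E2 - E1) := by
      rw [map_sub]
    rw [e] at q2
    refine T1_case h2 hM (a := 1 - a) (E1 := E2) (E2 := E1) (z1 := z2) (z2 := z1)
      (by linear_combination ha) (by rw [hE2]; ring) (by rw [hE1]; ring) h2' (by rw [h1]; ring)
      hB hBA hz2 hz1 ?_ q2.symm
    rw [map_mul, map_mul, ← q1, ← q2]
    linear_combination (quadraticChar (ZMod p) (PadicInt.toZMod z2)) * sq1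

end split

/-- **Local solubility at the good primes.** -/
theorem good_prime (p : ℕ) [Fact p.Prime] (hp2 : p ≠ 2) (hp7 : p ≠ 7) (M : ℤ) (hM : ¬ (p : ℤ) ∣ M)
    (x y : ℤ) (hN : ¬ (p : ℤ) ∣ x^2 + x*y + 2*y^2) :
    LocZ ℚ_[p] (21*M) (112*M^2) ((x : ℚ_[p]) + 11*y) ((y : ℚ_[p])/M) := by
  have hM' : (M : ZMod p) ≠ 0 := by
    rw [Ne, ZMod.intCast_zmod_eq_zero_iff_dvd]; exact hM
  have hN' : ((x^2 + x*y + 2*y^2 : ℤ) : ZMod p) ≠ 0 := by
    rw [Ne, ZMod.intCast_zmod_eq_zero_iff_dvd]; exact hN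
  have hMne : M ≠ 0 := by rintro rfl; exact hM' (by simp)
  have t2 := two_ne (p := p) hp2
  have t7 : (7 : ZMod p) ≠ 0 := by
    intro h
    have h3 : ((7 : ℕ) : ZMod p) = 0 := by exact_mod_cast h
    rw [ZMod.natCast_eq_zero_iff] at h3
    exact hp7 ((Nat.prime_dvd_prime_iff_eq (Fact.out) (by norm_num)).1 h3)
  by_cases hs : IsSquare (-7 : ZMod p)
  · -- split
    obtain ⟨s, hs'⟩ := lift_sq (p := p) hp2 (z := -7)
      (by rw [map_neg, map_ofNat]; exact neg_ne_zero.2 t7)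
      (by rw [map_neg, map_ofNat]; exact hs)
    obtain ⟨w, hw⟩ := inv_of (p := p) (z := 2) (by rw [map_ofNat]; exact t2)
    refine split_case hp2 hp7 hM' hN' (a := w*(1 + s)) ?_
    linear_combination (w^2) * hs' + (w*(s - 3) - 2) * hw
  · -- inert
    obtain ⟨W, hW⟩ := inv_of (p := p) (z := (M : ℤ_[p])) (by rw [map_intCast]; exact hM')
    have hWz : (M : ZMod p) * PadicInt.toZMod W = 1 := by
      rw [← map_intCast (PadicInt.toZMod (p := p)) M, ← map_mul, hW, map_one]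
    have hF : ringChar (ZMod p) ≠ 2 := by rw [ZMod.ringChar_zmod_n]; exact hp2
    have hb : ((112*M^2 : ℤ) : ZMod p) ≠ 0 := by
      have e : ((112*M^2 : ℤ) : ZMod p) = 2*2*2*2*7*(M : ZMod p)^2 := by push_cast; ring
      rw [e]
      exact mul_ne_zero (mul_ne_zero (mul_ne_zero (mul_ne_zero (mul_ne_zero t2 t2) t2) t2) t7)
        (pow_ne_zero 2 hM')
    have hval : PadicInt.toZMod (((x : ℤ_[p]) + 11*(y : ℤ_[p]))^2 -
        ((21*M : ℤ) : ℤ_[p])*((x : ℤ_[p]) + 11*(y : ℤ_[p]))*((y : ℤ_[p])*W) +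
        ((112*M^2 : ℤ) : ℤ_[p])*((y : ℤ_[p])*W)^2) ≠ 0 := by
      have e : ((x : ℤ_[p]) + 11*y)^2 - ((21*M : ℤ) : ℤ_[p])*((x : ℤ_[p]) + 11*y)*((y : ℤ_[p])*W) +
        ((112*M^2 : ℤ) : ℤ_[p])*((y : ℤ_[p])*W)^2 = ((x^2 + x*y + 2*y^2 : ℤ) : ℤ_[p]) := by
        push_cast
        linear_combination (-21*((x : ℤ_[p]) + 11*y)*y + 112*y^2*(M*W + 1)) * hW
      rw [e, map_intCast]
      exact hN'
    have k := LocZ_lift (p := p) (a := 21*M) (b := 112*M^2) hp2 (u := (x : ℤ_[p]) + 11*(y : ℤ_[p]))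
      (v := (y : ℤ_[p])*W) hb hval ?_
    · have hWQ : (W : ℚ_[p]) = 1/M := by
        have := congrArg (fun z : ℤ_[p] => (z : ℚ_[p])) hW
        push_cast at this
        have hMQ : (M : ℚ_[p]) ≠ 0 := by exact_mod_cast hMne
        rw [eq_div_iff hMQ]
        linear_combination this
      have c11 : (((11 : ℤ_[p])) : ℚ_[p]) = 11 := rfl
      push_cast [c11] at k
      rw [hWQ, ← div_eq_mul_one_div] at k
      exact k
    · refine LocZ_inert hF ?_ hb ?_
      · intro h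
        apply hs
        obtain ⟨r, hr⟩ := h
        push_cast at hr
        refine ⟨r*PadicInt.toZMod W, ?_⟩
        linear_combination (-7*((M : ZMod p)*PadicInt.toZMod W + 1)) * hWz*(-1) + (PadicInt.toZMod W)^2 * hr
      · have e := hval
        simpa only [map_add, map_sub, map_mul, map_pow, map_intCast] using e

end Pool.Agent.L0h98.BSD
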