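import Mathlib
import Pool.Agent.L0h4.TC.Zd

/-!
# Local solubility of the general 2-coverings at the prime two
-/

set_option autoImplicit false

namespace Pool.Agent.L0h98.BSD.Two

open Pool.Agent.L0h4.TC


lemma norm_two : ‖(2 : ℤ_[2])‖ = 1/2 := by
  have h := PadicInt.norm_p (p := 2)
  push_cast at h
  rw [h]; norm_num

lemma hens2 (w : ℤ_[2]) : ∃ t : ℤ_[2], t^2 = 1 + 8*w := by
  let F : Polynomial ℤ_[2] := Polynomial.X^2 - Polynomial.C (1 + 8*w)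
  have h1 : F.aeval (1 : ℤ_[2]) = -(2^3*w) := by
    simp only [F, map_sub, map_pow, Polynomial.aeval_X, Polynomial.aeval_C]
    simp only [Algebra.algebraMap_self, RingHom.id_apply]
    ring
  have h3 : F.derivative.aeval (1 : ℤ_[2]) = 2 := by simp [F, one_add_one_eq_two]
  obtain ⟨t, ht, -⟩ := hensels_lemma (p := 2) (R := ℤ_[2]) (F := F) (a := 1) (by
    rw [h1, h3, norm_neg, norm_mul, norm_pow, norm_two]
    have := PadicInt.norm_le_one w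
    nlinarith)
  refine ⟨t, ?_⟩
  have e : F.aeval t = t^2 - (1 + 8*w) := by
    simp only [F, map_sub, map_pow, Polynomial.aeval_X, Polynomial.aeval_C]
    simp only [Algebra.algebraMap_self, RingHom.id_apply]
  rw [e] at ht
  linear_combination ht

lemma exists_s : ∃ s : ℤ_[2], 1 - 181*s + 8192*s^2 = 0 := by
  let F : Polynomial ℤ_[2] := Polynomial.C 8192*Polynomial.X^2 - Polynomial.C 181*Polynomial.X + 1
  have h1 : F.aeval (1 : ℤ_[2]) = 2*4006 := by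
    simp only [F, map_add, map_mul, map_sub, map_pow, Polynomial.aeval_X, Polynomial.aeval_C, map_one]
    simp only [Algebra.algebraMap_self, RingHom.id_apply]
    norm_num
  have h3 : F.derivative.aeval (1 : ℤ_[2]) = 2*8101 + 1 := by
    simp only [F, Polynomial.derivative_add, Polynomial.derivative_sub, Polynomial.derivative_mul,
      Polynomial.derivative_C, Polynomial.derivative_X_pow, Polynomial.derivative_X, Polynomial.derivative_one,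
      map_add, map_mul, map_sub, map_pow, Polynomial.aeval_X, Polynomial.aeval_C, map_one, map_zero]
    simp only [Algebra.algebraMap_self, RingHom.id_apply]
    norm_num
  have h4 : ‖(2*8101 + 1 : ℤ_[2])‖ = 1 := by
    apply le_antisymm (PadicInt.norm_le_one _)
    by_contra hcon
    have h5 : ‖(1 : ℤ_[2])‖ < 1 := by
      have e : (1 : ℤ_[2]) = (2*8101 + 1) + -(2*8101) := by ring
      rw [e]
      refine lt_of_le_of_lt (PadicInt.nonarchimedean _ _) ?_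
      refine max_lt (not_le.1 hcon) ?_
      rw [norm_neg, norm_mul, norm_two]
      have := PadicInt.norm_le_one (8101 : ℤ_[2])
      linarith
    rw [norm_one] at h5
    exact lt_irrefl _ h5
  obtain ⟨t, ht, -⟩ := hensels_lemma (p := 2) (R := ℤ_[2]) (F := F) (a := 1) (by
    rw [h1, h3, h4, norm_mul, norm_two]
    have := PadicInt.norm_le_one (4006 : ℤ_[2])
    linarith)
  refine ⟨t, ?_⟩
  have e : F.aeval t = 8192*t^2 - 181*t + 1 := by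
    simp only [F, map_add, map_mul, map_sub, map_pow, Polynomial.aeval_X, Polynomial.aeval_C, map_one]
    simp only [Algebra.algebraMap_self, RingHom.id_apply]
  rw [e] at ht
  linear_combination ht

/-- units are classified modulo squares by their residue modulo eight -/
lemma cls {n k : ℤ} (hk : n*n = 1 + 8*k) (v : ℤ_[2]) :
    ∃ t : ℚ_[2], t ≠ 0 ∧ ((n : ℚ_[2]) + 8*(v : ℚ_[2])) = n*t^2 := by
  obtain ⟨t, ht⟩ := hens2 ((k : ℤ_[2]) + n*v)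
  have hk' : ((n : ℚ_[2]))*n = 1 + 8*k := by exact_mod_cast hk
  have hn0 : n ≠ 0 := by rintro rfl; omega
  have hn : (n : ℚ_[2]) ≠ 0 := by exact_mod_cast hn0
  have c8 : (((8 : ℤ_[2])) : ℚ_[2]) = 8 := rfl
  have hQ : (t : ℚ_[2])^2 = 1 + 8*(k + n*v) := by
    have := congrArg (fun z : ℤ_[2] => (z : ℚ_[2])) ht
    push_cast [c8] at this
    exact this
  have hne : (t : ℚ_[2]) ≠ 0 := by
    intro h0
    have h1 : t = 0 := Subtype.ext h0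
    rw [h1] at ht
    have h2 : (1 : ℤ_[2]) = 2*(-(4*((k : ℤ_[2]) + (n : ℤ_[2])*v))) := by linear_combination -ht
    have h3 : ‖(1 : ℤ_[2])‖ < 1 := by
      rw [h2, norm_mul, norm_two]
      have := PadicInt.norm_le_one (-(4*((k : ℤ_[2]) + (n : ℤ_[2])*v)))
      linarith
    rw [norm_one] at h3
    exact lt_irrefl _ h3
  refine ⟨t/n, div_ne_zero hne hn, ?_⟩
  rw [div_pow, hQ]
  field_simp
  linear_combination hk'

/-- the master lemma -/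
lemma pt {D x y n1 n2 k1 k2 k3 : ℤ} (hD : D ≠ 0) (h1 : n1*n1 = 1 + 8*k1) (h2 : n2*n2 = 1 + 8*k2)
    (h3 : (n1*n2)*(n1*n2) = 1 + 8*k3) {s : ℤ_[2]} (hs : 1 - 181*s + 8192*s^2 = 0)
    {u1 u2 : ℤ_[2]} (hz1 : (x : ℤ_[2]) + y*(-90 + 8192*s) = n1 + 8*u1)
    (hz2 : (x : ℤ_[2]) + y*(1 - (-90 + 8192*s)) = n2 + 8*u2)
    (X c1 c2 c3 : ℚ_[2]) (v1 v2 v3 : ℤ_[2]) (hc1 : c1 ≠ 0) (hc2 : c2 ≠ 0) (hc3 : c3 ≠ 0)
    (e1 : X + D*(101 - 8192*(s : ℚ_[2])) = c1^2*(n1 + 8*v1))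
    (e2 : X + D*(-80 + 8192*(s : ℚ_[2])) = c2^2*(n2 + 8*v2))
    (e3 : X = c3^2*(n1*n2 + 8*v3)) :
    LocZ ℚ_[2] (21*D) (112*D^2) ((x : ℚ_[2]) + 11*y) ((y : ℚ_[2])/D) := by
  obtain ⟨t1, ht1, f1⟩ := cls h1 v1
  obtain ⟨t2, ht2, f2⟩ := cls h2 v2
  obtain ⟨t3, ht3, f3⟩ := cls h3 v3
  obtain ⟨w1, hw1, g1⟩ := cls h1 u1
  obtain ⟨w2, hw2, g2⟩ := cls h2 u2
  have c8 : (((8 : ℤ_[2])) : ℚ_[2]) = 8 := rfl
  have c90 : (((90 : ℤ_[2])) : ℚ_[2]) = 90 := rfl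
  have c181 : (((181 : ℤ_[2])) : ℚ_[2]) = 181 := rfl
  have c8192 : (((8192 : ℤ_[2])) : ℚ_[2]) = 8192 := rfl
  have sQ : 1 - 181*(s : ℚ_[2]) + 8192*(s : ℚ_[2])^2 = 0 := by
    have := congrArg (fun z : ℤ_[2] => (z : ℚ_[2])) hs
    push_cast [c181, c8192] at this
    exact this
  have z1Q : (x : ℚ_[2]) + y*(-90 + 8192*s) = n1*w1^2 := by
    rw [← g1]
    have := congrArg (fun z : ℤ_[2] => (z : ℚ_[2])) hz1
    push_cast [c8, c90, c8192] at this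
    exact this
  have z2Q : (x : ℚ_[2]) + y*(1 - (-90 + 8192*s)) = n2*w2^2 := by
    rw [← g2]
    have := congrArg (fun z : ℤ_[2] => (z : ℚ_[2])) hz2
    push_cast [c8, c90, c8192] at this
    exact this
  push_cast at f3
  rw [f1] at e1
  rw [f2] at e2
  rw [f3] at e3
  have hn1 : (n1 : ℚ_[2]) ≠ 0 := by
    have : n1 ≠ 0 := by rintro rfl; omega
    exact_mod_cast this
  have hn2 : (n2 : ℚ_[2]) ≠ 0 := by
    have : n2 ≠ 0 := by rintro rfl; omega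
    exact_mod_cast this
  refine Or.inr (Or.inr ?_)
  refine ptz_split (L := ℚ_[2]) (D := D) hD (x := (x : ℚ_[2])) (y := (y : ℚ_[2]))
    (a := -90 + 8192*(s : ℚ_[2])) (X := X) (Y := n1*n2*(c1*c2*c3)*(t1*t2*t3)) (w₁ := c1*t1/w1)
    (w₂ := c2*t2/w2) ?_ ?_ ?_ ?_ ?_
  · linear_combination (8192 : ℚ_[2]) * sQ
  · exact mul_ne_zero (mul_ne_zero (mul_ne_zero hn1 hn2) (mul_ne_zero (mul_ne_zero hc1 hc2) hc3))
      (mul_ne_zero (mul_ne_zero ht1 ht2) ht3)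
  · have e1' : X - D*(-90 + 8192*(s : ℚ_[2]) - 11) = c1^2*(n1*t1^2) := by rw [← e1]; ring
    have e2' : X - D*(-(-90 + 8192*(s : ℚ_[2])) - 10) = c2^2*(n2*t2^2) := by rw [← e2]; ring
    rw [e1', e2', e3]
    ring
  · rw [z1Q]
    have e1' : X - D*(-90 + 8192*(s : ℚ_[2]) - 11) = c1^2*(n1*t1^2) := by rw [← e1]; ring
    rw [e1']
    field_simp
  · rw [z2Q]
    have e2' : X - D*(-(-90 + 8192*(s : ℚ_[2])) - 10) = c2^2*(n2*t2^2) := by rw [← e2]; ring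
    rw [e2']
    field_simp

/-- the master lemma, with integers -/
lemma pt' {D x y n1 n2 k1 k2 k3 : ℤ} (hD : D ≠ 0) (h1 : n1*n1 = 1 + 8*k1) (h2 : n2*n2 = 1 + 8*k2)
    (h3 : (n1*n2)*(n1*n2) = 1 + 8*k3) {s : ℤ_[2]} (hs : 1 - 181*s + 8192*s^2 = 0)
    {u1 u2 : ℤ_[2]} (hz1 : (x : ℤ_[2]) + y*(-90 + 8192*s) = n1 + 8*u1)
    (hz2 : (x : ℤ_[2]) + y*(1 - (-90 + 8192*s)) = n2 + 8*u2)
    (X c1 c2 c3 : ℚ_[2]) (A1 B1 A2 B2 A3 : ℤ) (hc1 : c1 ≠ 0) (hc2 : c2 ≠ 0) (hc3 : c3 ≠ 0)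
    (e1 : X + D*(101 - 8192*(s : ℚ_[2])) = c1^2*(n1 + 8*(A1 + B1*(s : ℚ_[2]))))
    (e2 : X + D*(-80 + 8192*(s : ℚ_[2])) = c2^2*(n2 + 8*(A2 + B2*(s : ℚ_[2]))))
    (e3 : X = c3^2*(n1*n2 + 8*(A3 : ℚ_[2]))) :
    LocZ ℚ_[2] (21*D) (112*D^2) ((x : ℚ_[2]) + 11*y) ((y : ℚ_[2])/D) := by
  refine pt hD h1 h2 h3 hs hz1 hz2 X c1 c2 c3 ((A1 : ℤ_[2]) + (B1 : ℤ_[2])*s)
    ((A2 : ℤ_[2]) + (B2 : ℤ_[2])*s) (A3 : ℤ_[2]) hc1 hc2 hc3 ?_ ?_ ?_
  · rw [e1]; push_cast; ring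
  · rw [e2]; push_cast; ring
  · rw [e3]; push_cast; ring

/-- squares -/
lemma sq_case {D x y : ℤ} (hD : D ≠ 0) (h1 : (1 : ℤ)*1 = 1 + 8*0) {s : ℤ_[2]}
    (hs : 1 - 181*s + 8192*s^2 = 0)
    {u1 u2 : ℤ_[2]} (hz1 : (x : ℤ_[2]) + y*(-90 + 8192*s) = 1 + 8*u1)
    (hz2 : (x : ℤ_[2]) + y*(1 - (-90 + 8192*s)) = 1 + 8*u2) :
    LocZ ℚ_[2] (21*D) (112*D^2) ((x : ℚ_[2]) + 11*y) ((y : ℚ_[2])/D) := by
  obtain ⟨w1, hw1, g1⟩ := cls h1 u1
  obtain ⟨w2, hw2, g2⟩ := cls h1 u2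
  have c8 : (((8 : ℤ_[2])) : ℚ_[2]) = 8 := rfl
  have c90 : (((90 : ℤ_[2])) : ℚ_[2]) = 90 := rfl
  have c181 : (((181 : ℤ_[2])) : ℚ_[2]) = 181 := rfl
  have c8192 : (((8192 : ℤ_[2])) : ℚ_[2]) = 8192 := rfl
  have sQ : 1 - 181*(s : ℚ_[2]) + 8192*(s : ℚ_[2])^2 = 0 := by
    have := congrArg (fun z : ℤ_[2] => (z : ℚ_[2])) hs
    push_cast [c181, c8192] at this
    exact this
  push_cast at g1 g2
  have z1Q : (x : ℚ_[2]) + y*(-90 + 8192*s) = w1^2 := by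
    rw [one_mul] at g1
    rw [← g1]
    have := congrArg (fun z : ℤ_[2] => (z : ℚ_[2])) hz1
    push_cast [c8, c90, c8192] at this
    exact this
  have z2Q : (x : ℚ_[2]) + y*(1 - (-90 + 8192*s)) = w2^2 := by
    rw [one_mul] at g2
    rw [← g2]
    have := congrArg (fun z : ℤ_[2] => (z : ℚ_[2])) hz2
    push_cast [c8, c90, c8192] at this
    exact this
  refine Or.inl (SqS.sqz hD (sqS_split (s := -181 + 16384*(s : ℚ_[2])) (w₁ := w1) (w₂ := w2) ?_ ?_ ?_))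
  · linear_combination (4*8192 : ℚ_[2]) * sQ
  · rw [← z1Q]; ring
  · rw [← z2Q]; ring

/-- **Local solubility at two.** -/
theorem two_prime (D : ℤ) (hD : D % 4 = 1) (x y : ℤ) (hx : x % 4 = 1) (hy : y % 2 = 0) :
    LocZ ℚ_[2] (21*D) (112*D^2) ((x : ℚ_[2]) + 11*y) ((y : ℚ_[2])/D) := by
  have hD0 : D ≠ 0 := by rintro rfl; omega
  obtain ⟨s, hs⟩ := exists_s
  obtain ⟨y', rfl⟩ : ∃ y', y = 2*y' := ⟨y/2, by omega⟩
  -- the residues of `z1` and `z2`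
  have r1 : ∃ n1 k1 : ℤ, (n1 = 1 ∨ n1 = 5) ∧ x + 12*y' = n1 + 8*k1 := by
    rcases (by omega : (x + 12*y') % 8 = 1 ∨ (x + 12*y') % 8 = 5) with h | h
    · exact ⟨1, (x + 12*y')/8, Or.inl rfl, by omega⟩
    · exact ⟨5, (x + 12*y')/8, Or.inr rfl, by omega⟩
  have r2 : ∃ n2 k2 : ℤ, (n2 = 1 ∨ n2 = 3 ∨ n2 = 5 ∨ n2 = 7) ∧ x - 10*y' = n2 + 8*k2 := by
    rcases (by omega : (x - 10*y') % 8 = 1 ∨ (x - 10*y') % 8 = 3 ∨ (x - 10*y') % 8 = 5 ∨
      (x - 10*y') % 8 = 7) with h | h | h | h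
    · exact ⟨1, (x - 10*y')/8, Or.inl rfl, by omega⟩
    · exact ⟨3, (x - 10*y')/8, Or.inr (Or.inl rfl), by omega⟩
    · exact ⟨5, (x - 10*y')/8, Or.inr (Or.inr (Or.inl rfl)), by omega⟩
    · exact ⟨7, (x - 10*y')/8, Or.inr (Or.inr (Or.inr rfl)), by omega⟩
  obtain ⟨n1, k1, hn1, q1⟩ := r1
  obtain ⟨n2, k2, hn2, q2⟩ := r2
  have q1' : (x : ℤ_[2]) + 12*(y' : ℤ_[2]) = n1 + 8*k1 := by exact_mod_cast q1
  have q2' : (x : ℤ_[2]) - 10*(y' : ℤ_[2]) = n2 + 8*k2 := by exact_mod_cast q2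
  have hz1 : (x : ℤ_[2]) + ((2*y' : ℤ) : ℤ_[2])*(-90 + 8192*s) = n1 + 8*((k1 : ℤ_[2]) - 24*y' + 2048*(y' : ℤ_[2])*s) := by
    push_cast
    linear_combination q1'
  have hz2 : (x : ℤ_[2]) + ((2*y' : ℤ) : ℤ_[2])*(1 - (-90 + 8192*s)) = n2 + 8*((k2 : ℤ_[2]) + 24*y' - 2048*(y' : ℤ_[2])*s) := by
    push_cast
    linear_combination q2'
  have c8 : (((8 : ℤ_[2])) : ℚ_[2]) = 8 := rfl
  rcases (by omega : D % 8 = 1 ∨ D % 8 = 5) with hD8 | hD8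
  · obtain ⟨d, rfl⟩ : ∃ d, D = 1 + 8*d := ⟨D/8, by omega⟩
    rcases hn1 with rfl | rfl <;> rcases hn2 with rfl | rfl | rfl | rfl
    · exact sq_case hD0 (by norm_num) hs (by push_cast at hz1; push_cast; exact hz1) (by push_cast at hz2; push_cast; exact hz2)
    · refine pt' hD0 (k1 := 0) (k2 := 1) (k3 := 1) (by norm_num) (by norm_num) (by norm_num) hs hz1 hz2
        (16 + 155*(1 + 8*(d : ℚ_[2]))) 4 1 1 (2*(1 + 8*d)) (-(64*(1 + 8*d)))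
        (11 + 75*d) (1024*(1 + 8*d)) (21 + 155*d)
        (by norm_num) (by norm_num) (by norm_num) ?_ ?_ ?_ <;> (push_cast; ring)
    · refine pt' hD0 (k1 := 0) (k2 := 3) (k3 := 3) (by norm_num) (by norm_num) (by norm_num) hs hz1 hz2
        (5/4) (1/2) (1/2) (1/2) (51 + 404*d) (-(4096*(1 + 8*d)))
        (-40*(1 + 8*d)) (4096*(1 + 8*d)) (0)
        (by norm_num) (by norm_num) (by norm_num) ?_ ?_ ?_ <;> (push_cast; ring)
    · refine pt' hD0 (k1 := 0) (k2 := 6) (k3 := 6) (by norm_num) (by norm_num) (by norm_num) hs hz1 hz2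
        (4 + 155*(1 + 8*(d : ℚ_[2]))) 2 1 1 (8*(1 + 8*d)) (-(256*(1 + 8*d)))
        (9 + 75*d) (1024*(1 + 8*d)) (19 + 155*d)
        (by norm_num) (by norm_num) (by norm_num) ?_ ?_ ?_ <;> (push_cast; ring)
    · refine pt' hD0 (k1 := 3) (k2 := 0) (k3 := 3) (by norm_num) (by norm_num) (by norm_num) hs hz1 hz2
        (16*(16 - 123*(1 + 8*(d : ℚ_[2])))) 1 16 4 (-202 - 1867*d) (-(1024*(1 + 8*d)))
        (-(1 + 8*d)) (4*(1 + 8*d)) (-14 - 123*d)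
        (by norm_num) (by norm_num) (by norm_num) ?_ ?_ ?_ <;> (push_cast; ring)
    · refine pt' hD0 (k1 := 3) (k2 := 1) (k3 := 28) (by norm_num) (by norm_num) (by norm_num) hs hz1 hz2
        (7*256) 1 4 16 (236 + 101*d) (-(1024*(1 + 8*d)))
        (13 - 5*d) (64*(1 + 8*d)) (-1)
        (by norm_num) (by norm_num) (by norm_num) ?_ ?_ ?_ <;> (push_cast; ring)
    · refine pt' hD0 (k1 := 3) (k2 := 3) (k3 := 78) (by norm_num) (by norm_num) (by norm_num) hs hz1 hz2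
        (16*(20 - 59*(1 + 8*(d : ℚ_[2])))) 1 8 4 (-66 - 843*d) (-(1024*(1 + 8*d)))
        (-2*(1 + 8*d)) (16*(1 + 8*d)) (-8 - 59*d)
        (by norm_num) (by norm_num) (by norm_num) ?_ ?_ ?_ <;> (push_cast; ring)
    · refine pt' hD0 (k1 := 3) (k2 := 6) (k3 := 153) (by norm_num) (by norm_num) (by norm_num) hs hz1 hz2
        192 1 4 8 (36 + 101*d) (-(1024*(1 + 8*d)))
        (-5*d) (64*(1 + 8*d)) (-4)
        (by norm_num) (by norm_num) (by norm_num) ?_ ?_ ?_ <;> (push_cast; ring)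
  · obtain ⟨d, rfl⟩ : ∃ d, D = 5 + 8*d := ⟨D/8, by omega⟩
    rcases hn1 with rfl | rfl <;> rcases hn2 with rfl | rfl | rfl | rfl
    · exact sq_case hD0 (by norm_num) hs (by push_cast at hz1; push_cast; exact hz1) (by push_cast at hz2; push_cast; exact hz2)
    · refine pt' hD0 (k1 := 0) (k2 := 1) (k3 := 1) (by norm_num) (by norm_num) (by norm_num) hs hz1 hz2
        (4 + 155*(5 + 8*(d : ℚ_[2]))) 2 1 1 (8*(5 + 8*d)) (-(256*(5 + 8*d)))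
        (47 + 75*d) (1024*(5 + 8*d)) (97 + 155*d)
        (by norm_num) (by norm_num) (by norm_num) ?_ ?_ ?_ <;> (push_cast; ring)
    · refine pt' hD0 (k1 := 0) (k2 := 3) (k3 := 3) (by norm_num) (by norm_num) (by norm_num) hs hz1 hz2
        (5/4) (1/2) (1/2) (1/2) (253 + 404*d) (-(4096*(5 + 8*d)))
        (-40*(5 + 8*d)) (4096*(5 + 8*d)) (0)
        (by norm_num) (by norm_num) (by norm_num) ?_ ?_ ?_ <;> (push_cast; ring)
    · refine pt' hD0 (k1 := 0) (k2 := 6) (k3 := 6) (by norm_num) (by norm_num) (by norm_num) hs hz1 hz2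
        (16 + 155*(5 + 8*(d : ℚ_[2]))) 4 1 1 (2*(5 + 8*d)) (-(64*(5 + 8*d)))
        (48 + 75*d) (1024*(5 + 8*d)) (98 + 155*d)
        (by norm_num) (by norm_num) (by norm_num) ?_ ?_ ?_ <;> (push_cast; ring)
    · refine pt' hD0 (k1 := 3) (k2 := 0) (k3 := 3) (by norm_num) (by norm_num) (by norm_num) hs hz1 hz2
        20 1 2 2 (65 + 101*d) (-(1024*(5 + 8*d)))
        (-12 - 20*d) (256*(5 + 8*d)) (0)
        (by norm_num) (by norm_num) (by norm_num) ?_ ?_ ?_ <;> (push_cast; ring)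
    · refine pt' hD0 (k1 := 3) (k2 := 1) (k3 := 28) (by norm_num) (by norm_num) (by norm_num) hs hz1 hz2
        28 1 2 2 (66 + 101*d) (-(1024*(5 + 8*d)))
        (-12 - 20*d) (256*(5 + 8*d)) (-1)
        (by norm_num) (by norm_num) (by norm_num) ?_ ?_ ?_ <;> (push_cast; ring)
    · refine pt' hD0 (k1 := 3) (k2 := 3) (k3 := 78) (by norm_num) (by norm_num) (by norm_num) hs hz1 hz2
        4 1 2 2 (63 + 101*d) (-(1024*(5 + 8*d)))
        (-13 - 20*d) (256*(5 + 8*d)) (-3)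
        (by norm_num) (by norm_num) (by norm_num) ?_ ?_ ?_ <;> (push_cast; ring)
    · refine pt' hD0 (k1 := 3) (k2 := 6) (k3 := 153) (by norm_num) (by norm_num) (by norm_num) hs hz1 hz2
        12 1 2 2 (64 + 101*d) (-(1024*(5 + 8*d)))
        (-13 - 20*d) (256*(5 + 8*d)) (-4)
        (by norm_num) (by norm_num) (by norm_num) ?_ ?_ ?_ <;> (push_cast; ring)

end Pool.Agent.L0h98.BSD.Two
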