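import Pool.Agent.L0h98.EV.Loc2

/-!
# Local solubility at two for `D = 3 mod 4` and `D = 2 mod 4`
-/

set_option autoImplicit false

namespace Pool.Agent.L0h98.BSD.TwoE

open Pool.Agent.L0h4.TC Pool.Agent.L0h98.EV.Two

/-- the classes at the second root -/
def A2 (D c : ℤ) : Prop :=
  (D % 8 = 3 ∧ (c = 1 ∨ c = 5 ∨ c = 2 ∨ c = 10)) ∨
  (D % 8 = 7 ∧ (c = 1 ∨ c = 5 ∨ c = -2 ∨ c = -10)) ∨
  (D % 16 = 2 ∧ (c = 1 ∨ c = -1 ∨ c = 10 ∨ c = -10)) ∨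
  (D % 16 = 6 ∧ (c = 1 ∨ c = 2 ∨ c = -5 ∨ c = -10)) ∨
  (D % 16 = 10 ∧ (c = 1 ∨ c = -1 ∨ c = 2 ∨ c = -2)) ∨
  (D % 16 = 14 ∧ (c = 1 ∨ c = 10 ∨ c = -2 ∨ c = -5))

/-- norms from `ℚ₂(√(5 D))` -/
def Nm (D : ℤ) (c : ℚ_[2]) : Prop := ∃ g h : ℚ_[2], c = g ^ 2 - 5 * D * h ^ 2

lemma Nm.mul {D : ℤ} {c c' : ℚ_[2]} (h : Nm D c) (h' : Nm D c') : Nm D (c * c') := by
  obtain ⟨g, k, rfl⟩ := h
  obtain ⟨g', k', rfl⟩ := h'
  exact ⟨g * g' + 5 * D * k * k', g * k' + k * g', by ring⟩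

lemma Nm.sq (D : ℤ) (m : ℚ_[2]) : Nm D (m ^ 2) := ⟨m, 0, by ring⟩

/-- an integer `1` modulo `8` is a square -/
lemma sqi (n : ℤ) : ∃ t : ℚ_[2], t ≠ 0 ∧ 1 + 8 * (n : ℚ_[2]) = t ^ 2 := sq8 (ni n)

/-- `c + 5 D h² = 1 mod 8` -/
lemma Nm.direct {D c : ℤ} (h n : ℤ) (e : c + 5 * D * h ^ 2 = 1 + 8 * n) : Nm D c := by
  obtain ⟨t, -, ht⟩ := sqi n
  refine ⟨t, h, ?_⟩
  rw [← ht]
  have e' : (c : ℚ_[2]) + 5 * D * h ^ 2 = 1 + 8 * n := by exact_mod_cast e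
  linear_combination e'

/-- `- 5 D = c (1 mod 8)` -/
lemma Nm.root {D c : ℤ} (n : ℤ) (e : -5 * D = c * (1 + 8 * n)) : Nm D c := by
  obtain ⟨t, ht0, ht⟩ := sqi n
  refine ⟨0, 1 / t, ?_⟩
  have e' : -5 * (D : ℚ_[2]) = c * (1 + 8 * n) := by exact_mod_cast e
  rw [ht] at e'
  field_simp
  linear_combination -e'

lemma Nm.one (D : ℤ) : Nm D ((1 : ℤ) : ℚ_[2]) := ⟨1, 0, by push_cast; ring⟩

/-- the classes are norms -/
lemma A2.nm {D c : ℤ} (hc : A2 D c) : Nm D c := by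
  rcases hc with ⟨hD, hc⟩ | ⟨hD, hc⟩ | ⟨hD, hc⟩ | ⟨hD, hc⟩ | ⟨hD, hc⟩ | ⟨hD, hc⟩
  · obtain ⟨d, rfl⟩ : ∃ d, D = 8 * d + 3 := ⟨D / 8, by omega⟩
    rcases hc with rfl | rfl | rfl | rfl
    · exact Nm.one _
    · exact Nm.direct 2 (8 + 20 * d) (by ring)
    · exact Nm.direct 1 (2 + 5 * d) (by ring)
    · exact Nm.direct 1 (3 + 5 * d) (by ring)
  · obtain ⟨d, rfl⟩ : ∃ d, D = 8 * d + 7 := ⟨D / 8, by omega⟩
    rcases hc with rfl | rfl | rfl | rfl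
    · exact Nm.one _
    · exact Nm.direct 2 (18 + 20 * d) (by ring)
    · exact Nm.direct 1 (4 + 5 * d) (by ring)
    · exact Nm.direct 1 (3 + 5 * d) (by ring)
  · obtain ⟨d, rfl⟩ : ∃ d, D = 16 * d + 2 := ⟨D / 16, by omega⟩
    have h1 : Nm (16 * d + 2) ((-1 : ℤ) : ℚ_[2]) := Nm.direct 1 (1 + 10 * d) (by ring)
    have h2 : Nm (16 * d + 2) ((-10 : ℤ) : ℚ_[2]) := Nm.root d (by ring)
    rcases hc with rfl | rfl | rfl | rfl
    · exact Nm.one _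
    · exact h1
    · have := h1.mul h2
      push_cast at this ⊢
      norm_num at this
      exact this
    · exact h2
  · obtain ⟨d, rfl⟩ : ∃ d, D = 16 * d + 6 := ⟨D / 16, by omega⟩
    have h1 : Nm (16 * d + 6) ((-5 : ℤ) : ℚ_[2]) := Nm.direct 1 (3 + 10 * d) (by ring)
    have h2 : Nm (16 * d + 6) ((2 : ℤ) : ℚ_[2]) := Nm.root (-2 - 5 * d) (by ring)
    rcases hc with rfl | rfl | rfl | rfl
    · exact Nm.one _
    · exact h2
    · exact h1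
    · have := h1.mul h2
      push_cast at this ⊢
      norm_num at this
      exact this
  · obtain ⟨d, rfl⟩ : ∃ d, D = 16 * d + 10 := ⟨D / 16, by omega⟩
    have h1 : Nm (16 * d + 10) ((-1 : ℤ) : ℚ_[2]) := Nm.direct 1 (6 + 10 * d) (by ring)
    have h2 : Nm (16 * d + 10) ((-2 : ℤ) : ℚ_[2]) := Nm.root (3 + 5 * d) (by ring)
    rcases hc with rfl | rfl | rfl | rfl
    · exact Nm.one _
    · exact h1
    · have := h1.mul h2
      push_cast at this ⊢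
      norm_num at this
      exact this
    · exact h2
  · obtain ⟨d, rfl⟩ : ∃ d, D = 16 * d + 14 := ⟨D / 16, by omega⟩
    have h1 : Nm (16 * d + 14) ((-5 : ℤ) : ℚ_[2]) := Nm.direct 1 (8 + 10 * d) (by ring)
    have h2 : Nm (16 * d + 14) ((10 : ℤ) : ℚ_[2]) := Nm.root (-1 - d) (by ring)
    rcases hc with rfl | rfl | rfl | rfl
    · exact Nm.one _
    · exact h2
    · have := (h1.mul h2).mul (Nm.sq _ (1 / 5))
      push_cast at this ⊢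
      norm_num at this
      exact this
    · exact h1

/-- **Local solubility at two, even discriminants.** -/
theorem two_even (D : ℤ) {A x y : ℚ_[2]} (hA : A ^ 2 = A - 2) (hn : ‖A‖ < 1)
    (h1 : ∃ m : ℚ_[2], m ≠ 0 ∧ (x + y * A = m ^ 2 ∨ 5 * D * (x + y * A) = m ^ 2)) {c : ℤ}
    (hc : A2 D c) (h2 : ∃ m : ℚ_[2], m ≠ 0 ∧ x + y * (1 - A) = c * m ^ 2) :
    LocZ ℚ_[2] (21 * D) (112 * D ^ 2) (x + 11 * y) (y / D) := by
  have hD : D % 4 = 2 ∨ D % 4 = 3 := by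
    unfold A2 at hc
    omega
  have hc0 : c ≠ 0 := by
    unfold A2 at hc
    omega
  have hD0 : (D : ℚ_[2]) ≠ 0 := by
    have : D ≠ 0 := by omega
    exact_mod_cast this
  obtain ⟨m, hm, e2⟩ := h2
  refine loc_two D hD hA hn ?_ ?_ ?_
  · obtain ⟨m', hm', e1 | e1⟩ := h1
    · exact Or.inl ⟨m', hm', e1⟩
    · refine Or.inr ⟨m' / (5 * D), div_ne_zero hm' (mul_ne_zero (by norm_num) hD0), ?_⟩
      rw [div_pow, ← e1]
      field_simp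
  · rw [e2]
    exact mul_ne_zero (by exact_mod_cast hc0) (pow_ne_zero 2 hm)
  · rw [e2]
    exact hc.nm.mul (Nm.sq D m)

/-! ### the root of `T² - T + 2` and the units of `ℤ₂` -/

/-- the root that is `6` modulo `32` -/
theorem exists_A : ∃ A : ℤ_[2], A ^ 2 = A - 2 ∧ (∃ u : ℤ_[2], IsUnit u ∧ A = 2 * u) ∧
    (∃ w : ℤ_[2], A = 6 + 32 * w) ∧ IsUnit (1 - A) ∧ ‖(A : ℚ_[2])‖ < 1 := by
  obtain ⟨s, hs⟩ := Pool.Agent.L0h98.BSD.Two.exists_s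
  have hA : (-90 + 8192 * s) ^ 2 = (-90 + 8192 * s) - 2 := by
    linear_combination (8192 : ℤ_[2]) * hs
  have hu : IsUnit (-45 + 4096 * s) := by
    have h1 : (-45 + 4096 * s) * (91 - 8192 * s) = 1 := by
      linear_combination (-4096 : ℤ_[2]) * hs
    exact IsUnit.of_mul_eq_one _ h1
  refine ⟨-90 + 8192 * s, hA, ⟨-45 + 4096 * s, hu, by ring⟩, ⟨-3 + 256 * s, by ring⟩, ?_, ?_⟩
  · have h1 : (1 - (-90 + 8192 * s)) * (-45 + 4096 * s) = 1 := by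
      linear_combination (-4096 : ℤ_[2]) * hs
    exact IsUnit.of_mul_eq_one _ h1
  · have h1 : ‖(-90 + 8192 * s : ℤ_[2])‖ < 1 := by
      rw [PadicInt.norm_lt_one_iff_dvd]
      exact ⟨-45 + 4096 * s, by push_cast; ring⟩
    exact h1

/-- the unit `n + 8 w` is `c` times a square if `c = n` modulo `8` -/
lemma cls8 {n c : ℤ} (k : ℤ) (hc : c * (n - c) = 8 * k) (hc2 : ∃ l : ℤ, c * c = 1 + 8 * l)
    (w : ℤ_[2]) : ∃ m : ℤ_[2], (n : ℤ_[2]) + 8 * w = c * m ^ 2 := by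
  obtain ⟨l, hl⟩ := hc2
  -- `c (n + 8 w) = 1 + 8 (l + k + c w)`
  obtain ⟨t, ht⟩ := Pool.Agent.L0h98.BSD.Two.hens2 ((l : ℤ_[2]) + k + c * w)
  have h1 : (c : ℤ_[2]) * (n - c) = 8 * k := by exact_mod_cast hc
  have h2 : (c : ℤ_[2]) * c = 1 + 8 * l := by exact_mod_cast hl
  have hu : IsUnit (c : ℤ_[2]) := by
    rw [PadicInt.isUnit_iff]
    have : c % 2 = 1 := by
      rcases Int.emod_two_eq_zero_or_one c with h | h
      · exfalso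
        obtain ⟨c', rfl⟩ : ∃ c', c = 2 * c' := ⟨c / 2, by omega⟩
        have : 2 * (c' * (2 * c')) = 1 + 8 * l := by rw [← hl]; ring
        omega
      · exact h
    exact nodd this
  obtain ⟨c', hc'⟩ := hu.exists_right_inv
  refine ⟨t * c', ?_⟩
  have h3 : (c : ℤ_[2]) * (t * c') ^ 2 = t ^ 2 * c' := by
    linear_combination (t ^ 2 * c') * hc'
  rw [h3, ht]
  linear_combination (-(n : ℤ_[2]) - 8 * w) * hc' + c' * h1 + c' * h2

/-- **the units of `ℤ₂` modulo squares** -/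
theorem unit_cls (u : ℤ_[2]) (hu : IsUnit u) :
    (∃ w m : ℤ_[2], u = 1 + 8 * w ∧ u = m ^ 2) ∨ (∃ w m : ℤ_[2], u = 3 + 8 * w ∧ u = -5 * m ^ 2) ∨
    (∃ w m : ℤ_[2], u = 5 + 8 * w ∧ u = 5 * m ^ 2) ∨
    (∃ w m : ℤ_[2], u = 7 + 8 * w ∧ u = -1 * m ^ 2) := by
  have h1 := PadicInt.appr_spec 3 u
  have h2 := PadicInt.appr_lt u 3
  rw [Ideal.mem_span_singleton] at h1
  obtain ⟨w, hw⟩ := h1
  have h3 : u = ((PadicInt.appr u 3 : ℕ) : ℤ_[2]) + 8 * w := by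
    have e : (((2 : ℕ) : ℤ_[2])) ^ 3 = 8 := by norm_num
    rw [e] at hw
    linear_combination hw
  generalize PadicInt.appr u 3 = n at h2 h3
  have hodd : n % 2 = 1 := by
    rcases Nat.mod_two_eq_zero_or_one n with h | h
    · exfalso
      obtain ⟨k, rfl⟩ : ∃ k, n = 2 * k := ⟨n / 2, by omega⟩
      rw [PadicInt.isUnit_iff] at hu
      have h4 : u = 2 * ((k : ℤ_[2]) + 4 * w) := by
        rw [h3]
        push_cast
        ring
      have h5 : ‖u‖ < 1 := by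
        rw [PadicInt.norm_lt_one_iff_dvd]
        exact ⟨(k : ℤ_[2]) + 4 * w, by rw [h4]; push_cast; ring⟩
      rw [hu] at h5
      exact lt_irrefl _ h5
    · exact h
  have h4 : n = 1 ∨ n = 3 ∨ n = 5 ∨ n = 7 := by omega
  rcases h4 with rfl | rfl | rfl | rfl
  · left
    obtain ⟨m, hm⟩ := cls8 (n := 1) (c := 1) 0 (by norm_num) ⟨0, by norm_num⟩ w
    push_cast at hm h3
    exact ⟨w, m, h3, by rw [h3, hm]; ring⟩
  · right; left
    obtain ⟨m, hm⟩ := cls8 (n := 3) (c := -5) (-5) (by norm_num) ⟨3, by norm_num⟩ w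
    push_cast at hm h3
    exact ⟨w, m, h3, by rw [h3, hm]⟩
  · right; right; left
    obtain ⟨m, hm⟩ := cls8 (n := 5) (c := 5) 0 (by norm_num) ⟨3, by norm_num⟩ w
    push_cast at hm h3
    exact ⟨w, m, h3, by rw [h3, hm]⟩
  · right; right; right
    obtain ⟨m, hm⟩ := cls8 (n := 7) (c := -1) (-1) (by norm_num) ⟨0, by norm_num⟩ w
    push_cast at hm h3
    exact ⟨w, m, h3, by rw [h3, hm]⟩

end Pool.Agent.L0h98.BSD.TwoE
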